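import Pool.Agent.V5helper19.EP.All
import Pool.Agent.W5h2.DP.Un

/-!
# MP_eddf4b_co: log (number of minimal dominating sets) = O(q^(3/2)) for every projective plane

`Dom`, `Ind`, `numInd`, `numMin`, `Tan` are the definitions of the starting files
(`Pool.Agent.W5h2.DP`); `numTan` is the number of tangency sets.
-/

set_option autoImplicit false

namespace Pool.Agent.Results.MP_eddf4b_co.MinimalUpperBound

open Configuration Pool.Agent.W5h2.DP

open Classical in
theorem result : ∃ C : ℝ, ∀ (P L : Type) [Fintype P] [Fintype L] [Membership P L]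
    [ProjectivePlane P L] (q : ℕ), q = ProjectivePlane.order P L →
    -- every plane: minimal dominating sets
    (Real.logb 2 (numMin P L) ≤ C * (q : ℝ) ^ (3 / 2 : ℝ)) ∧
    -- every plane: tangency sets
    (Real.logb 2 (V5helper19.EP.numTan P L) ≤ C * (q : ℝ) ^ (3 / 2 : ℝ)) ∧
    -- planes with a unital: the order of magnitude
    ∀ (r : ℕ) (U : Finset P), q = r ^ 2 → U.card = r ^ 3 + 1 →
      (∀ l : L, (U.filter fun p => p ∈ l).card = 1 ∨ (U.filter fun p => p ∈ l).card = r + 1) →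
      (q : ℝ) ^ (3 / 2 : ℝ) ≤ Real.logb 2 (numInd P L) ∧
      Real.logb 2 (numInd P L) ≤ Real.logb 2 (numMin P L) ∧
      Real.logb 2 (numMin P L) ≤ C * (q : ℝ) ^ (3 / 2 : ℝ) := by
  obtain ⟨C₁, h1⟩ := V5helper19.EP.all_min
  obtain ⟨C₂, h2⟩ := V5helper19.EP.all_tan
  refine ⟨max C₁ C₂, fun P L _ _ _ _ q hq => ?_⟩
  have hp : (0 : ℝ) ≤ (q : ℝ) ^ (3 / 2 : ℝ) := by positivity
  have hA : Real.logb 2 (numMin P L) ≤ max C₁ C₂ * (q : ℝ) ^ (3 / 2 : ℝ) :=
    (h1 P L q hq).trans (mul_le_mul_of_nonneg_right (le_max_left _ _) hp)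
  refine ⟨hA, (h2 P L q hq).trans (mul_le_mul_of_nonneg_right (le_max_right _ _) hp), ?_⟩
  intro r U hr hU hl
  have h3 : Tan P L U := un P L r (hq ▸ hr) U hU hl
  have h6 : (0 : ℝ) < numInd P L := by exact_mod_cast num_pos P L u
  have h7 : (numInd P L : ℝ) ≤ numMin P L := by exact_mod_cast i P L
  refine ⟨le_trans ?_ (card_le_log u P L U h3), Real.logb_le_logb_of_le (by norm_num) h6 h7, hA⟩
  have h4 : (q : ℝ) ^ (3 / 2 : ℝ) = (r : ℝ) ^ 3 := by
    rw [hr]
    push_cast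
    rw [← Real.rpow_natCast (r : ℝ) 2, ← Real.rpow_mul (Nat.cast_nonneg r),
      ← Real.rpow_natCast (r : ℝ) 3]
    norm_num
  rw [h4, hU]
  push_cast
  linarith

end Pool.Agent.Results.MP_eddf4b_co.MinimalUpperBound
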